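import Mathlib

set_option autoImplicit false

/-! The number of the points of a subgroup of `ℤ^ι` in a large box. -/

open Finset Filter Topology MeasureTheory
open scoped Pointwise

namespace Pool.Agent.R414.ED

variable {ι : Type} [Fintype ι]

/-- the number of the integral vectors with entries at most `H` with the property `P` -/
noncomputable def cnt (P : (ι → ℤ) → Prop) (H : ℕ) : ℕ :=
  ({v | (∀ i, |v i| ≤ (H : ℤ)) ∧ P v} : Set (ι → ℤ)).ncard

theorem box_finite (P : (ι → ℤ) → Prop) (H : ℕ) :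
    ({v | (∀ i, |v i| ≤ (H : ℤ)) ∧ P v} : Set (ι → ℤ)).Finite := by
  classical
  refine (Set.finite_Icc (fun _ : ι => -(H : ℤ)) (fun _ => (H : ℤ))).subset ?_
  rintro v ⟨hv, -⟩
  rw [Set.mem_Icc, Pi.le_def, Pi.le_def]
  exact ⟨fun i => (abs_le.mp (hv i)).1, fun i => (abs_le.mp (hv i)).2⟩

theorem cnt_mono {P Q : (ι → ℤ) → Prop} (h : ∀ v, P v → Q v) (H : ℕ) : cnt P H ≤ cnt Q H :=
  Set.ncard_le_ncard (fun v hv => ⟨hv.1, h v hv.2⟩) (box_finite Q H)

theorem cnt_or {P Q : (ι → ℤ) → Prop} (H : ℕ) : cnt (fun v => P v ∨ Q v) H ≤ cnt P H + cnt Q H := by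
  have h1 : ({v | (∀ i, |v i| ≤ (H : ℤ)) ∧ (P v ∨ Q v)} : Set (ι → ℤ)) =
      {v | (∀ i, |v i| ≤ (H : ℤ)) ∧ P v} ∪ {v | (∀ i, |v i| ≤ (H : ℤ)) ∧ Q v} := by
    ext v
    simp only [Set.mem_setOf_eq, Set.mem_union]
    tauto
  unfold cnt
  rw [h1]
  exact Set.ncard_union_le _ _

section lattice

variable (L : Submodule ℤ (ι → ℤ))

/-- the basis -/
noncomputable def bs : Module.Basis (Fin (Module.finrank ℤ L)) ℤ L := Module.finBasis ℤ L

/-- the real map given by the basis -/
noncomputable def rm : (Fin (Module.finrank ℤ L) → ℝ) →ₗ[ℝ] (ι → ℝ) where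
  toFun t i := ∑ j, t j * (((bs L j : L) : ι → ℤ) i : ℝ)
  map_add' s t := by
    funext i
    simp [add_mul, sum_add_distrib]
  map_smul' s t := by
    funext i
    simp [mul_assoc, mul_sum]

theorem rm_int (c : Fin (Module.finrank ℤ L) → ℤ) (i : ι) :
    rm L (fun j => (c j : ℝ)) i = (((∑ j, c j • bs L j : L) : ι → ℤ) i : ℝ) := by
  simp [rm, Finset.sum_apply]

theorem rm_inj : Function.Injective (rm L) := by
  rw [injective_iff_map_eq_zero]
  intro t ht
  by_contra hne
  have hne' : ∃ j, t j ≠ 0 := by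
    by_contra h
    push Not at h
    exact hne (funext h)
  obtain ⟨j₀, hj₀⟩ := hne'
  -- a rational functional
  obtain ⟨f, hf⟩ : ∃ f : Module.Dual ℚ ℝ, f (t j₀) ≠ 0 := by
    by_contra h
    push Not at h
    exact hj₀ ((Module.forall_dual_apply_eq_zero_iff ℚ (t j₀)).mp h)
  have h1 : ∀ i, ∑ j, f (t j) * ((((bs L j : L) : ι → ℤ) i : ℤ) : ℚ) = 0 := by
    intro i
    have h2 := congrArg f (congrFun ht i)
    simp only [rm, LinearMap.coe_mk, AddHom.coe_mk, map_sum, Pi.zero_apply, map_zero] at h2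
    rw [← h2]
    refine sum_congr rfl fun j _ => ?_
    have h3 : t j * (((bs L j : L) : ι → ℤ) i : ℝ) = (((bs L j : L) : ι → ℤ) i : ℚ) • t j := by
      rw [Algebra.smul_def, mul_comm]
      simp
    rw [h3, map_smul, smul_eq_mul, mul_comm]
  -- clear denominators
  obtain ⟨M, hM0, hM⟩ : ∃ M : ℤ, M ≠ 0 ∧ ∀ j, ∃ z : ℤ, (z : ℚ) = M * f (t j) := by
    refine ⟨∏ j, (f (t j)).den, ?_, ?_⟩
    · rw [Finset.prod_ne_zero_iff]
      intro j _
      exact_mod_cast (f (t j)).den_nz
    · intro j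
      obtain ⟨w, hw⟩ := Finset.dvd_prod_of_mem (fun j => (f (t j)).den) (mem_univ j)
      refine ⟨w * (f (t j)).num, ?_⟩
      have h5 : (f (t j)) * (f (t j)).den = (f (t j)).num := Rat.mul_den_eq_num _
      have h6 : ((∏ j, ((f (t j)).den : ℤ) : ℤ) : ℚ) = ((f (t j)).den : ℚ) * w := by
        have h7 := congrArg (fun n : ℕ => (n : ℚ)) hw
        push_cast at h7 ⊢
        exact h7
      rw [h6]
      push_cast
      rw [← h5]
      ring
  choose z hz using hM
  have h4 : ∑ j, z j • bs L j = 0 := by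
    apply Subtype.ext
    funext i
    have h5 : (((∑ j, z j * ((bs L j : L) : ι → ℤ) i : ℤ)) : ℚ) = 0 := by
      push_cast
      have h6 := congrArg (fun x => (M : ℚ) * x) (h1 i)
      simp only [mul_zero, mul_sum] at h6
      rw [← h6]
      refine sum_congr rfl fun j _ => ?_
      rw [hz]
      ring
    have h7 : (∑ j, z j * ((bs L j : L) : ι → ℤ) i : ℤ) = 0 := by exact_mod_cast h5
    rw [ZeroMemClass.coe_zero, Pi.zero_apply, ← h7]
    simp [Finset.sum_apply]
  have h8 := (Fintype.linearIndependent_iff.mp (bs L).linearIndependent) z h4 j₀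
  have h9 := hz j₀
  rw [h8, Int.cast_zero] at h9
  rcases mul_eq_zero.mp h9.symm with h10 | h10
  · exact hM0 (by exact_mod_cast h10)
  · exact hf h10

/-- the convex body -/
def body : Set (Fin (Module.finrank ℤ L) → ℝ) := {t | ∀ i, |rm L t i| ≤ 1}

theorem rm_cont : Continuous (rm L) := LinearMap.continuous_of_finiteDimensional _

theorem body_eq : body L = rm L ⁻¹' Metric.closedBall 0 1 := by
  ext t
  simp only [body, Set.mem_preimage, mem_closedBall_zero_iff]
  rw [pi_norm_le_iff_of_nonneg zero_le_one]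
  rfl

theorem body_closed : IsClosed (body L) := by
  rw [body_eq]
  exact Metric.isClosed_closedBall.preimage (rm_cont L)

theorem body_convex : Convex ℝ (body L) := by
  rw [body_eq]
  exact (convex_closedBall 0 1).linear_preimage _

theorem exists_le : ∃ C : ℝ, 0 < C ∧ ∀ t, ‖t‖ ≤ C * ‖rm L t‖ := by
  obtain ⟨K, hK0, hK⟩ := LinearMap.exists_antilipschitzWith (rm L)
    (LinearMap.ker_eq_bot.mpr (rm_inj L))
  refine ⟨K, by exact_mod_cast hK0, fun t => ?_⟩
  have h := hK.le_mul_dist t 0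
  rwa [dist_zero_right, map_zero, dist_zero_right] at h

theorem body_bounded : Bornology.IsBounded (body L) := by
  obtain ⟨C, hC, h⟩ := exists_le L
  apply (Metric.isBounded_closedBall (x := (0 : Fin (Module.finrank ℤ L) → ℝ)) (r := C)).subset
  intro t ht
  rw [body_eq, Set.mem_preimage, mem_closedBall_zero_iff] at ht
  rw [mem_closedBall_zero_iff]
  refine (h t).trans ?_
  nlinarith

theorem body_vol : 0 < volume.real (body L) := by
  have h1 : (0 : Fin (Module.finrank ℤ L) → ℝ) ∈ rm L ⁻¹' Metric.ball 0 1 := by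
    rw [Set.mem_preimage, map_zero]
    exact Metric.mem_ball_self one_pos
  have h2 : IsOpen (rm L ⁻¹' Metric.ball 0 1) := Metric.isOpen_ball.preimage (rm_cont L)
  have h3 : 0 < volume (rm L ⁻¹' Metric.ball 0 1) := h2.measure_pos volume ⟨0, h1⟩
  have h4 : rm L ⁻¹' Metric.ball 0 1 ⊆ body L := by
    rw [body_eq]
    exact Set.preimage_mono Metric.ball_subset_closedBall
  rw [measureReal_def]
  refine ENNReal.toReal_pos (lt_of_lt_of_le h3 (measure_mono h4)).ne' ?_
  exact (body_bounded L).measure_lt_top.ne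

theorem cnt_L {H : ℕ} (hH : 1 ≤ H) :
    Nat.card ↑(body L ∩ (((H : ℕ) : ℝ)⁻¹ • (Submodule.span ℤ (Set.range
      (Pi.basisFun ℝ (Fin (Module.finrank ℤ L)))) : Set (Fin (Module.finrank ℤ L) → ℝ)))) =
    cnt (fun v => v ∈ L) H := by
  classical
  obtain ⟨n, hn⟩ : ∃ n : ℝ, n = (H : ℝ) := ⟨_, rfl⟩
  have hn0 : 0 < n := by rw [hn]; positivity
  rw [← hn]
  let f : (ι → ℤ) → (Fin (Module.finrank ℤ L) → ℝ) := fun v =>
    if h : v ∈ L then fun j => (((bs L).repr ⟨v, h⟩ j : ℤ) : ℝ) / n else 0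
  have hf : ∀ (v : ι → ℤ) (h : v ∈ L), f v = fun j => (((bs L).repr ⟨v, h⟩ j : ℤ) : ℝ) / n := by
    intro v h
    simp only [f, h, dite_true]
  have hrm : ∀ (v : ι → ℤ) (h : v ∈ L) (i : ι), rm L (f v) i = (v i : ℝ) / n := by
    intro v h i
    have e1 : f v = n⁻¹ • (fun j => (((bs L).repr ⟨v, h⟩ j : ℤ) : ℝ)) := by
      rw [hf v h]
      funext j
      simp only [Pi.smul_apply, smul_eq_mul]
      ring
    rw [e1, map_smul, Pi.smul_apply, rm_int, (bs L).sum_repr, smul_eq_mul]
    ring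
  have hset : body L ∩ (n⁻¹ • (Submodule.span ℤ (Set.range
      (Pi.basisFun ℝ (Fin (Module.finrank ℤ L)))) : Set (Fin (Module.finrank ℤ L) → ℝ))) =
      f '' {v | (∀ i, |v i| ≤ (H : ℤ)) ∧ v ∈ L} := by
    ext u
    simp only [Set.mem_inter_iff, Set.mem_image]
    constructor
    · rintro ⟨h1, h3⟩
      rw [Set.mem_smul_set] at h3
      obtain ⟨z, hz, rfl⟩ := h3
      rw [SetLike.mem_coe, Module.Basis.mem_span_iff_repr_mem] at hz
      choose c hc using hz
      have hc' : ∀ i, (c i : ℝ) = z i := by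
        intro i
        have := hc i
        rw [Pi.basisFun_repr] at this
        rw [← this]
        rfl
      have hzc : z = fun i => (c i : ℝ) := by
        funext i
        rw [hc']
      refine ⟨((∑ j, c j • bs L j : L) : ι → ℤ), ⟨?_, (∑ j, c j • bs L j : L).2⟩, ?_⟩
      · intro i
        have h4 := h1 i
        rw [map_smul, Pi.smul_apply, hzc, rm_int, smul_eq_mul, abs_mul, abs_of_pos (inv_pos.mpr hn0),
          inv_mul_le_iff₀ hn0, mul_one, hn] at h4
        exact_mod_cast h4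
      · rw [hf _ (∑ j, c j • bs L j : L).2]
        funext j
        have e1 : (⟨((∑ j, c j • bs L j : L) : ι → ℤ), (∑ j, c j • bs L j : L).2⟩ : L) =
            ∑ j, c j • bs L j := Subtype.ext rfl
        rw [e1, (bs L).repr_sum_self, Pi.smul_apply, smul_eq_mul, ← hc' j]
        ring
    · rintro ⟨v, ⟨h1, h2⟩, rfl⟩
      refine ⟨?_, ?_⟩
      · intro i
        rw [hrm v h2 i, abs_div, abs_of_pos hn0, div_le_one hn0, hn]
        exact_mod_cast h1 i
      · rw [Set.mem_smul_set]
        refine ⟨fun j => (((bs L).repr ⟨v, h2⟩ j : ℤ) : ℝ), ?_, ?_⟩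
        · rw [SetLike.mem_coe, Module.Basis.mem_span_iff_repr_mem]
          intro i
          rw [Pi.basisFun_repr]
          exact ⟨_, rfl⟩
        · rw [hf v h2]
          funext i
          rw [Pi.smul_apply, smul_eq_mul]
          field_simp
  rw [hset]
  have hinj : Set.InjOn f {v | (∀ i, |v i| ≤ (H : ℤ)) ∧ v ∈ L} := by
    intro v hv w hw h
    funext i
    have h1 := hrm v hv.2 i
    have h2 := hrm w hw.2 i
    rw [h, h2] at h1
    have h3 := (div_left_inj' hn0.ne').mp h1
    exact_mod_cast h3.symm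
  exact hinj.ncard_image

theorem tendsto_L : Tendsto (fun H : ℕ => (cnt (fun v => v ∈ L) H : ℝ) /
    (H : ℝ) ^ (Module.finrank ℤ L)) atTop (𝓝 (volume.real (body L))) := by
  have h1 := tendsto_card_div_pow_atTop_volume (body L) (body_bounded L)
    (body_closed L).measurableSet ((body_convex L).addHaar_frontier volume)
  rw [Fintype.card_fin] at h1
  refine h1.congr' ?_
  filter_upwards [eventually_ge_atTop 1] with H hH
  rw [cnt_L L hH]

end lattice

end Pool.Agent.R414.ED
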