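import Pool.Agent.R414.ED.Lat

set_option autoImplicit false
set_option linter.unusedSectionVars false

/-! Limit laws from lattice point counts and tail estimates. -/

open Finset Filter Topology MeasureTheory MvPolynomial

namespace Pool.Agent.R414.ED

/-- the limit of a sum over infinitely many classes -/
theorem abs_limit {I : Type*} (s : ℕ → ℝ) (A : I → ℕ → ℝ) (a : I → ℝ) (h0 : ∀ i, 0 ≤ a i)
    (hA : ∀ i, Tendsto (A i) atTop (𝓝 (a i)))
    (hT : ∀ ε : ℝ, 0 < ε → ∃ J : Finset I, ∀ J' : Finset I, J ⊆ J' → ∀ᶠ H in atTop,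
      |s H - ∑ i ∈ J', A i H| ≤ ε) :
    ∃ κ : ℝ, HasSum a κ ∧ Tendsto s atTop (𝓝 κ) := by
  classical
  have hsum : ∀ J : Finset I, Tendsto (fun H => ∑ i ∈ J, A i H) atTop (𝓝 (∑ i ∈ J, a i)) :=
    fun J => tendsto_finsetSum J fun i _ => hA i
  have step : ∀ ε : ℝ, 0 < ε → ∃ J : Finset I, (∀ᶠ H in atTop, |s H - ∑ i ∈ J, A i H| ≤ ε) ∧
      ∀ u : Finset I, ∑ i ∈ u, a i ≤ ∑ i ∈ J, a i + 2 * ε := by
    intro ε hε
    obtain ⟨J, hJ⟩ := hT ε hε
    refine ⟨J, hJ J (Finset.Subset.refl _), fun u => ?_⟩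
    have h1 : ∑ i ∈ u, a i ≤ ∑ i ∈ u ∪ J, a i :=
      Finset.sum_le_sum_of_subset_of_nonneg Finset.subset_union_left fun i _ _ => h0 i
    have h2 : ∑ i ∈ u ∪ J, a i - ∑ i ∈ J, a i ≤ 2 * ε := by
      refine le_of_tendsto ((hsum (u ∪ J)).sub (hsum J)) ?_
      filter_upwards [hJ J (Finset.Subset.refl _), hJ (u ∪ J) Finset.subset_union_right] with H h3 h4
      rw [abs_le] at h3 h4
      linarith [h3.1, h3.2, h4.1, h4.2]
    linarith
  obtain ⟨J₁, -, hJ₁⟩ := step 1 one_pos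
  have hs : Summable a := summable_of_sum_le h0 hJ₁
  refine ⟨∑' i, a i, hs.hasSum, ?_⟩
  rw [Metric.tendsto_atTop]
  intro ε hε
  obtain ⟨J, hJ1, hJ2⟩ := step (ε / 8) (by positivity)
  have h1 : ∑' i, a i ≤ ∑ i ∈ J, a i + 2 * (ε / 8) := hs.tsum_le_of_sum_le hJ2
  have h2 : ∑ i ∈ J, a i ≤ ∑' i, a i := hs.sum_le_tsum J fun i _ => h0 i
  have h3 := (Metric.tendsto_atTop.mp (hsum J)) (ε / 8) (by positivity)
  obtain ⟨N₁, hN₁⟩ := h3
  obtain ⟨N₂, hN₂⟩ := eventually_atTop.mp hJ1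
  refine ⟨max N₁ N₂, fun H hH => ?_⟩
  have h4 := hN₁ H (le_trans (le_max_left _ _) hH)
  have h5 := hN₂ H (le_trans (le_max_right _ _) hH)
  rw [Real.dist_eq, abs_lt] at h4 ⊢
  rw [abs_le] at h5
  constructor <;> linarith [h4.1, h4.2, h5.1, h5.2]

variable {ι : Type} [Fintype ι]

theorem cnt_split (P Q : (ι → ℤ) → Prop) (H : ℕ) :
    cnt P H = cnt (fun v => P v ∧ Q v) H + cnt (fun v => P v ∧ ¬ Q v) H := by
  classical
  unfold cnt
  rw [← Set.ncard_inter_add_ncard_sdiff_eq_ncard {v | (∀ i, |v i| ≤ (H : ℤ)) ∧ P v} {v | Q v}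
    (box_finite P H)]
  congr 2
  · ext v
    simp only [Set.mem_inter_iff, Set.mem_ofPred_eq]
    tauto
  · ext v
    simp only [Set.mem_sdiff, Set.mem_ofPred_eq]
    tauto

theorem cnt_congr {P Q : (ι → ℤ) → Prop} (h : ∀ v, P v ↔ Q v) (H : ℕ) : cnt P H = cnt Q H := by
  have : P = Q := funext fun v => propext (h v)
  rw [this]

theorem cnt_sum {I : Type*} (S : (ι → ℤ) → Prop) (E : I → (ι → ℤ) → Prop)
    (h1 : ∀ i v, E i v → S v) (h2 : ∀ i j v, E i v → E j v → i = j) (J : Finset I) (H : ℕ) :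
    cnt S H = ∑ i ∈ J, cnt (E i) H + cnt (fun v => S v ∧ ∀ i ∈ J, ¬ E i v) H := by
  classical
  induction J using Finset.induction_on with
  | empty =>
    simp
  | insert i J hi ih =>
    rw [ih, Finset.sum_insert hi, cnt_split (fun v => S v ∧ ∀ i ∈ J, ¬ E i v) (E i)]
    have e1 : cnt (fun v => (S v ∧ ∀ i ∈ J, ¬ E i v) ∧ E i v) H = cnt (E i) H := by
      refine cnt_congr (fun v => ⟨fun h => h.2, fun h => ⟨⟨h1 i v h, fun j hj h' => ?_⟩, h⟩⟩) H
      exact hi (h2 i j v h h' ▸ hj)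
    have e2 : cnt (fun v => (S v ∧ ∀ i ∈ J, ¬ E i v) ∧ ¬ E i v) H =
        cnt (fun v => S v ∧ ∀ j ∈ insert i J, ¬ E j v) H := by
      refine cnt_congr (fun v => ?_) H
      simp only [Finset.mem_insert, forall_eq_or_imp]
      tauto
    rw [e1, e2]
    ring

/-- the zeros of a polynomial on a lattice are negligible -/
theorem zeros_negl (L : Submodule ℤ (ι → ℤ)) (P : MvPolynomial ι ℤ) {v₀ : ι → ℤ} (hv₀ : v₀ ∈ L)
    (h : eval v₀ P ≠ 0) :
    Tendsto (fun H : ℕ => (cnt (fun v => v ∈ L ∧ eval v P = 0) H : ℝ) /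
      (H : ℝ) ^ Module.finrank ℤ L) atTop (𝓝 0) := by
  classical
  set m := Module.finrank ℤ L with hm
  obtain ⟨P', hP'⟩ : ∃ P' : MvPolynomial (Fin m) ℤ, ∀ t : Fin m → ℤ,
      eval t P' = eval (((∑ j, t j • bs L j : L) : ι → ℤ)) P := by
    refine ⟨bind₁ (fun i => ∑ j, X j * C (((bs L j : L) : ι → ℤ) i)) P, fun t => ?_⟩
    have h1 := aeval_bind₁ (R := ℤ) (S := ℤ) t
      (fun i => ∑ j, X j * C (((bs L j : L) : ι → ℤ) i)) P
    rw [← aeval_eq_eval, h1, ← aeval_eq_eval]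
    congr 2
    funext i
    simp [Finset.sum_apply]
    rfl
  have hP0 : P' ≠ 0 := by
    intro h0
    apply h
    have h1 := hP' ((bs L).repr ⟨v₀, hv₀⟩)
    rw [(bs L).sum_repr, h0, map_zero] at h1
    exact h1.symm
  obtain ⟨C, hC, hle⟩ := exists_le L
  obtain ⟨K, hK⟩ := exists_nat_ge C
  set δ : ℝ := ((P'.totalDegree : ℕ) : ℝ) with hδ
  have hbd : ∀ H : ℕ, 1 ≤ H → (cnt (fun v => v ∈ L ∧ eval v P = 0) H : ℝ) / (H : ℝ) ^ m ≤
      (δ * (2 * K + 1) ^ m) * (1 / (H : ℝ)) := by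
    intro H hH
    have hHR : (1 : ℝ) ≤ H := by exact_mod_cast hH
    set S : Finset ℤ := Finset.Icc (-((K * H : ℕ) : ℤ)) ((K * H : ℕ) : ℤ) with hS
    have hScard : S.card = 2 * (K * H) + 1 := by
      rw [hS, Int.card_Icc]
      omega
    have h1 := schwartz_zippel_totalDegree hP0 S
    have h2 : cnt (fun v => v ∈ L ∧ eval v P = 0) H ≤
        #{f ∈ Fintype.piFinset fun _ : Fin m ↦ S | eval f P' = 0} := by
      rw [← Set.ncard_coe_finset]
      unfold cnt
      let f : (ι → ℤ) → (Fin m → ℤ) := fun v =>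
        if h : v ∈ L then fun j => (bs L).repr ⟨v, h⟩ j else 0
      have hf : ∀ (v : ι → ℤ) (h : v ∈ L), f v = fun j => (bs L).repr ⟨v, h⟩ j := by
        intro v h
        show (if h : v ∈ L then fun j => (bs L).repr ⟨v, h⟩ j else 0) = _
        rw [dif_pos h]
      refine Set.ncard_le_ncard_of_injOn f ?_ ?_ (Finset.finite_toSet _)
      · rintro v ⟨hv1, hv2, hv3⟩
        rw [Finset.mem_coe, Finset.mem_filter, Fintype.mem_piFinset, hf v hv2]
        constructor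
        · intro j
          have h3 := hle (fun j => (((bs L).repr ⟨v, hv2⟩ j : ℤ) : ℝ))
          have h4 : ‖rm L (fun j => (((bs L).repr ⟨v, hv2⟩ j : ℤ) : ℝ))‖ ≤ H := by
            rw [pi_norm_le_iff_of_nonneg (by positivity)]
            intro i
            rw [rm_int, (bs L).sum_repr, Real.norm_eq_abs]
            exact_mod_cast hv1 i
          have h5 : ‖(((bs L).repr ⟨v, hv2⟩ j : ℤ) : ℝ)‖ ≤
              ‖(fun j => (((bs L).repr ⟨v, hv2⟩ j : ℤ) : ℝ))‖ :=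
            norm_le_pi_norm (fun j => (((bs L).repr ⟨v, hv2⟩ j : ℤ) : ℝ)) j
          have h6 : |(((bs L).repr ⟨v, hv2⟩ j : ℤ) : ℝ)| ≤ ((K * H : ℕ) : ℝ) := by
            rw [← Real.norm_eq_abs]
            refine h5.trans (h3.trans ?_)
            push_cast
            exact mul_le_mul hK h4 (norm_nonneg _) (le_trans hC.le hK)
          have h7 : |(bs L).repr ⟨v, hv2⟩ j| ≤ ((K * H : ℕ) : ℤ) := by exact_mod_cast h6
          rw [hS, Finset.mem_Icc]
          exact abs_le.mp h7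
        · rw [hP', (bs L).sum_repr]
          exact hv3
      · rintro v ⟨-, hv2, -⟩ w ⟨-, hw2, -⟩ hvw
        rw [hf v hv2, hf w hw2] at hvw
        have h3 : (bs L).repr ⟨v, hv2⟩ = (bs L).repr ⟨w, hw2⟩ := Finsupp.ext fun j => congrFun hvw j
        have h4 := (bs L).repr.injective h3
        exact congrArg Subtype.val h4
    have h3 : ((#{f ∈ Fintype.piFinset fun _ : Fin m ↦ S | eval f P' = 0} : ℕ) : ℝ) /
        ((2 * (K * H) + 1 : ℕ) : ℝ) ^ m ≤ δ / ((2 * (K * H) + 1 : ℕ) : ℝ) := by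
      rw [hScard] at h1
      have h1' := (NNRat.cast_le (K := ℝ)).mpr h1
      push_cast at h1' ⊢
      exact h1'
    have hpos : (0 : ℝ) < ((2 * (K * H) + 1 : ℕ) : ℝ) := by positivity
    have h4 : ((2 * (K * H) + 1 : ℕ) : ℝ) ≤ (2 * K + 1) * H := by
      push_cast
      nlinarith
    have h5 : (H : ℝ) ≤ ((2 * (K * H) + 1 : ℕ) : ℝ) ∨ K = 0 := by
      rcases Nat.eq_zero_or_pos K with h | h
      · exact Or.inr h
      · left
        have : (1 : ℝ) ≤ K := by exact_mod_cast h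
        push_cast
        nlinarith
    have hK1 : 1 ≤ K := by
      rcases Nat.eq_zero_or_pos K with h | h
      · rw [h, Nat.cast_zero] at hK
        linarith
      · exact h
    have h5 : (H : ℝ) ≤ ((2 * (K * H) + 1 : ℕ) : ℝ) := by
      have : (1 : ℝ) ≤ K := by exact_mod_cast hK1
      push_cast
      nlinarith
    have h6 : (cnt (fun v => v ∈ L ∧ eval v P = 0) H : ℝ) ≤
        δ / ((2 * (K * H) + 1 : ℕ) : ℝ) * ((2 * (K * H) + 1 : ℕ) : ℝ) ^ m := by
      rw [div_le_iff₀ (by positivity)] at h3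
      exact le_trans (by exact_mod_cast h2) h3
    rw [div_le_iff₀ (by positivity)]
    refine h6.trans ?_
    have hδ0 : 0 ≤ δ := by rw [hδ]; positivity
    calc δ / ((2 * (K * H) + 1 : ℕ) : ℝ) * ((2 * (K * H) + 1 : ℕ) : ℝ) ^ m ≤
        δ / H * ((2 * K + 1) * H) ^ m := by
          gcongr
      _ = δ * (2 * K + 1) ^ m * (1 / H) * (H : ℝ) ^ m := by
          rw [mul_pow]
          ring
  refine squeeze_zero' (Eventually.of_forall fun H => by positivity)
    ((eventually_ge_atTop 1).mono hbd) ?_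
  have h1 := tendsto_one_div_atTop_nhds_zero_nat (𝕜 := ℝ)
  have h2 := h1.const_mul (δ * (2 * K + 1) ^ m)
  rwa [mul_zero] at h2

/-- the points of a lattice outside of the zeros of a polynomial, normalized with an exponent for
which an upper bound is known -/
theorem exists_limit (L : Submodule ℤ (ι → ℤ)) (Good : (ι → ℤ) → Prop) (e : ℕ) (C : ℝ)
    (hub : ∀ H : ℕ, 1 ≤ H → (cnt (fun v => v ∈ L ∧ Good v) H : ℝ) ≤ C * (H : ℝ) ^ e)
    (hND : ∀ v₀ ∈ L, Good v₀ → ∃ P : MvPolynomial ι ℤ, eval v₀ P ≠ 0 ∧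
      ∀ v, eval v P ≠ 0 → Good v) :
    ∃ a : ℝ, 0 ≤ a ∧
      Tendsto (fun H : ℕ => (cnt (fun v => v ∈ L ∧ Good v) H : ℝ) / (H : ℝ) ^ e) atTop (𝓝 a) ∧
      (e ≤ Module.finrank ℤ L → (∃ v₀ ∈ L, Good v₀) → 0 < a) := by
  classical
  by_cases hex : ∃ v₀ ∈ L, Good v₀
  · obtain ⟨v₀, hv₀, hg⟩ := hex
    obtain ⟨P, hP0, hP⟩ := hND v₀ hv₀ hg
    set m := Module.finrank ℤ L with hm
    set c := volume.real (body L) with hc
    have hc0 : 0 < c := body_vol L
    have h1 := tendsto_L L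
    have h2 := zeros_negl L P hv₀ hP0
    have h3 : Tendsto (fun H : ℕ => (cnt (fun v => v ∈ L ∧ Good v) H : ℝ) / (H : ℝ) ^ m) atTop
        (𝓝 c) := by
      have h4 := h1.sub h2
      rw [sub_zero] at h4
      refine tendsto_of_tendsto_of_tendsto_of_le_of_le h4 h1 (fun H => ?_) (fun H => ?_)
      · rw [← sub_div]
        refine div_le_div_of_nonneg_right ?_ (by positivity)
        have h5 : cnt (fun v => v ∈ L) H ≤ cnt (fun v => v ∈ L ∧ Good v) H +
            cnt (fun v => v ∈ L ∧ eval v P = 0) H := by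
          refine le_trans (cnt_mono (fun v hv => ?_) H) (cnt_or H)
          by_cases h6 : eval v P = 0
          · exact Or.inr ⟨hv, h6⟩
          · exact Or.inl ⟨hv, hP v h6⟩
        have h6 : (cnt (fun v => v ∈ L) H : ℝ) ≤ cnt (fun v => v ∈ L ∧ Good v) H +
            cnt (fun v => v ∈ L ∧ eval v P = 0) H := by exact_mod_cast h5
        linarith
      · refine div_le_div_of_nonneg_right ?_ (by positivity)
        exact Nat.cast_le.mpr (cnt_mono (fun v hv => hv.1) H)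
    have hme : m ≤ e := by
      by_contra hlt
      push Not at hlt
      have h4 : ∀ᶠ H : ℕ in atTop, c / 2 < (cnt (fun v => v ∈ L ∧ Good v) H : ℝ) / (H : ℝ) ^ m :=
        h3.eventually (lt_mem_nhds (by linarith))
      have h5 : ∀ᶠ H : ℕ in atTop, 2 * C / c < (H : ℝ) :=
        tendsto_natCast_atTop_atTop.eventually (eventually_gt_atTop _)
      obtain ⟨H, h6, h7, h8⟩ := (h4.and (h5.and (eventually_ge_atTop 1))).exists
      have hHR : (1 : ℝ) ≤ H := by exact_mod_cast h8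
      have hH0 : (0 : ℝ) < H := by linarith
      rw [lt_div_iff₀ (by positivity)] at h6
      have h9 := hub H h8
      have h10 : (H : ℝ) ^ (e + 1) ≤ (H : ℝ) ^ m := pow_le_pow_right₀ hHR hlt
      have h11 : c / 2 * ((H : ℝ) ^ e * H) < C * (H : ℝ) ^ e := by
        rw [← pow_succ]
        have : c / 2 * (H : ℝ) ^ (e + 1) ≤ c / 2 * (H : ℝ) ^ m :=
          mul_le_mul_of_nonneg_left h10 (by positivity)
        linarith
      have hp : (0 : ℝ) < (H : ℝ) ^ e := by positivity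
      have h12 : c / 2 * H < C := by
        have : (c / 2 * H) * (H : ℝ) ^ e < C * (H : ℝ) ^ e := by nlinarith
        exact lt_of_mul_lt_mul_right this hp.le
      rw [div_lt_iff₀ hc0] at h7
      linarith
    rcases Nat.lt_or_ge m e with hlt | hge
    · refine ⟨0, le_refl _, ?_, fun h => absurd h (by omega)⟩
      have h4 : Tendsto (fun H : ℕ => 1 / (H : ℝ) ^ (e - m)) atTop (𝓝 0) := by
        have h5 := (tendsto_one_div_atTop_nhds_zero_nat (𝕜 := ℝ)).pow (e - m)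
        rw [zero_pow (by omega)] at h5
        refine h5.congr fun H => ?_
        rw [one_div, one_div, inv_pow]
      have h5 := h3.mul h4
      rw [mul_zero] at h5
      refine h5.congr' ?_
      filter_upwards [eventually_ge_atTop 1] with H hH
      have hH0 : (0 : ℝ) < H := by exact_mod_cast hH
      have e1 : (H : ℝ) ^ e = (H : ℝ) ^ m * (H : ℝ) ^ (e - m) := by
        rw [← pow_add]
        congr 1
        omega
      rw [e1]
      field_simp
    · have : m = e := le_antisymm hme hge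
      rw [this] at h3
      exact ⟨c, hc0.le, h3, fun _ _ => hc0⟩
  · refine ⟨0, le_refl _, ?_, fun _ h => absurd h hex⟩
    have h1 : ∀ H : ℕ, cnt (fun v => v ∈ L ∧ Good v) H = 0 := by
      intro H
      unfold cnt
      rw [Set.ncard_eq_zero (box_finite _ H)]
      ext v
      simp only [Set.mem_ofPred_eq, Set.mem_empty_iff_false, iff_false]
      rintro ⟨-, h2, h3⟩
      exact hex ⟨v, h2, h3⟩
    simp only [h1, Nat.cast_zero, zero_div]
    exact tendsto_const_nhds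

/-- **The abstract limit law.** -/
theorem main_limit {I : Type*} (L : I → Submodule ℤ (ι → ℤ)) (Good Bad S : (ι → ℤ) → Prop)
    (E : I → (ι → ℤ) → Prop) (e : ℕ) (C : ℝ)
    (hE1 : ∀ i v, E i v → v ∈ L i ∧ Good v)
    (hE2 : ∀ i v, v ∈ L i → Good v → S v ∧ (¬ E i v → Bad v))
    (hE3 : ∀ i j v, E i v → E j v → i = j)
    (hBad : Tendsto (fun H : ℕ => (cnt Bad H : ℝ) / (H : ℝ) ^ e) atTop (𝓝 0))
    (hS : ∀ H : ℕ, 1 ≤ H → (cnt S H : ℝ) ≤ C * (H : ℝ) ^ e)
    (hT : ∀ ε : ℝ, 0 < ε → ∃ J : Finset I, ∀ᶠ H : ℕ in atTop,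
      (cnt (fun v => S v ∧ ∀ i ∈ J, ¬ E i v) H : ℝ) ≤ ε * (H : ℝ) ^ e)
    (hND : ∀ i, ∀ v₀ ∈ L i, Good v₀ → ∃ P : MvPolynomial ι ℤ, eval v₀ P ≠ 0 ∧
      ∀ v, eval v P ≠ 0 → Good v) :
    ∃ (a : I → ℝ) (κ : ℝ), (∀ i, 0 ≤ a i) ∧ HasSum a κ ∧
      Tendsto (fun H : ℕ => (cnt S H : ℝ) / (H : ℝ) ^ e) atTop (𝓝 κ) ∧
      (∀ i, Tendsto (fun H : ℕ => (cnt (E i) H : ℝ) / (H : ℝ) ^ e) atTop (𝓝 (a i))) ∧
      ∀ i, e ≤ Module.finrank ℤ (L i) → (∃ v₀ ∈ L i, Good v₀) → 0 < a i := by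
  classical
  have hlim : ∀ i, ∃ a : ℝ, 0 ≤ a ∧
      Tendsto (fun H : ℕ => (cnt (E i) H : ℝ) / (H : ℝ) ^ e) atTop (𝓝 a) ∧
      (e ≤ Module.finrank ℤ (L i) → (∃ v₀ ∈ L i, Good v₀) → 0 < a) := by
    intro i
    obtain ⟨a, ha0, ha1, ha2⟩ := exists_limit (L i) Good e C (fun H hH => by
      refine le_trans ?_ (hS H hH)
      exact Nat.cast_le.mpr (cnt_mono (fun v hv => (hE2 i v hv.1 hv.2).1) H)) (hND i)
    refine ⟨a, ha0, ?_, ha2⟩
    have h1 := ha1.sub hBad
    rw [sub_zero] at h1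
    refine tendsto_of_tendsto_of_tendsto_of_le_of_le h1 ha1 (fun H => ?_) (fun H => ?_)
    · rw [← sub_div]
      refine div_le_div_of_nonneg_right ?_ (by positivity)
      have h5 : cnt (fun v => v ∈ L i ∧ Good v) H ≤ cnt (E i) H + cnt Bad H := by
        refine le_trans (cnt_mono (fun v hv => ?_) H) (cnt_or H)
        by_cases h6 : E i v
        · exact Or.inl h6
        · exact Or.inr ((hE2 i v hv.1 hv.2).2 h6)
      have h6 : (cnt (fun v => v ∈ L i ∧ Good v) H : ℝ) ≤ cnt (E i) H + cnt Bad H := by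
        exact_mod_cast h5
      linarith
    · refine div_le_div_of_nonneg_right ?_ (by positivity)
      exact Nat.cast_le.mpr (cnt_mono (fun v hv => hE1 i v hv) H)
  choose a ha0 ha1 ha2 using hlim
  obtain ⟨κ, h1, h2⟩ := abs_limit (fun H : ℕ => (cnt S H : ℝ) / (H : ℝ) ^ e)
    (fun i H => (cnt (E i) H : ℝ) / (H : ℝ) ^ e) a ha0 ha1 (by
      intro ε hε
      obtain ⟨J, hJ⟩ := hT ε hε
      refine ⟨J, fun J' hJ' => ?_⟩
      filter_upwards [hJ, eventually_ge_atTop 1] with H h3 hH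
      have hH0 : (0 : ℝ) < H := by exact_mod_cast hH
      have h4 := cnt_sum S E (fun i v hv => (hE2 i v (hE1 i v hv).1 (hE1 i v hv).2).1) hE3 J' H
      have h5 : (cnt S H : ℝ) / (H : ℝ) ^ e - ∑ i ∈ J', (cnt (E i) H : ℝ) / (H : ℝ) ^ e =
          (cnt (fun v => S v ∧ ∀ i ∈ J', ¬ E i v) H : ℝ) / (H : ℝ) ^ e := by
        rw [h4, ← Finset.sum_div, ← sub_div]
        congr 1
        push_cast
        ring
      rw [h5, abs_of_nonneg (by positivity), div_le_iff₀ (by positivity)]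
      refine le_trans ?_ h3
      exact Nat.cast_le.mpr (cnt_mono (fun v hv => ⟨hv.1, fun i hi => hv.2 i (hJ' hi)⟩) H))
  exact ⟨a, κ, ha0, h1, h2, ha1, ha2⟩

end Pool.Agent.R414.ED
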